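import Pool.Agent.X117.Arc2
import Pool.Agent.X117.Sup3

/-!
# Upper bounds of the expected order for the discrete moments of `ζ'`

Unconditionally, for `0 < λ ≤ 2`, `A ≥ 1`: the sum of `m(ρ) |ζ'(ρ)| ^ (2 λ)` over the zeros `ρ = β + iγ` with `0 < γ ≤ T` and
`|β - 1/2| ≤ A / log T` (`m(ρ)` the multiplicity) is at most `C T (log T) ^ ((λ + 1) ^ 2)`; at most
`C T (log T) ^ (1 - λ ^ 2)` of these zeros satisfy `|ζ'(ρ)| ≥ (log T) ^ (1 + λ)`; and for every `m` and `1/2 < λ ≤ 2`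
the sum of `|Z^(m+1)(γ)| ^ (2 λ)` over the zeros `γ ∈ [T, 2 T]` of the derivative `Z^(m)` of Hardy's function is at most
`C T (log T) ^ (λ ^ 2 + 2 λ (m + 1) + 1)`.
-/

open Filter Topology Complex MeasureTheory

namespace Pool.Agent.Results.MP_69b2e4_nt.SharpUpperBounds

/-- the phase `exp (i ϑ(t))`, with `ϑ(t) = arg Γ(1/4 + i t / 2) - (t / 2) log π` -/
noncomputable def phase (t : ℝ) : ℂ :=
  Gamma (1 / 4 + I * t / 2) / ‖Gamma (1 / 4 + I * t / 2)‖ * cexp (-(I * (t / 2) * Real.log Real.pi))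

/-- Hardy's function `Z(t) = exp (i ϑ(t)) ζ(1/2 + i t)`; the product is real, see `Z_eq` -/
noncomputable def Z (t : ℝ) : ℝ := (phase t * riemannZeta (1 / 2 + I * t)).re

theorem Z_eq (t : ℝ) : ((Z t : ℝ) : ℂ) = phase t * riemannZeta (1 / 2 + I * t) :=
  Pool.Agent.X117.HZ.Z_eq t

/-- the multiplicity of a zero of zeta -/
noncomputable def mult (ρ : ℂ) : ℕ := analyticOrderNatAt riemannZeta ρ

/-- the zeros `ρ` of zeta with `0 < Im ρ ≤ T` and `|Re ρ - 1/2| ≤ A / log T` -/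
def near (A T : ℝ) : Set ℂ :=
  {ρ : ℂ | riemannZeta ρ = 0 ∧ |ρ.re - 1 / 2| ≤ A / Real.log T ∧ 0 < ρ.im ∧ ρ.im ≤ T}

/-- the sum of `m(ρ) |ζ'(ρ)| ^ (2 lam)` over these zeros -/
noncomputable def J (lam A T : ℝ) : ENNReal :=
  ∑' ρ : near A T, ENNReal.ofReal (mult ρ * ‖deriv riemannZeta ρ‖ ^ (2 * lam))

/-- the zeros in `near A T` at which `|ζ'| ≥ (log T) ^ (1 + κ)` -/
def large (κ A T : ℝ) : Set ℂ := {ρ : ℂ | ρ ∈ near A T ∧ Real.log T ^ (1 + κ) ≤ ‖deriv riemannZeta ρ‖}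

/-- the zeros of `Z^(m)` in `[T, 2 T]` -/
def zerosD (m : ℕ) (T : ℝ) : Set ℝ := {t : ℝ | T ≤ t ∧ t ≤ 2 * T ∧ iteratedDeriv m Z t = 0}

/-- the sum of `|Z^(m+1)| ^ (2 lam)` over the zeros of `Z^(m)` in `[T, 2 T]` -/
noncomputable def slopes (m : ℕ) (lam T : ℝ) : ENNReal :=
  ∑' t : zerosD m T, ENNReal.ofReal (|iteratedDeriv (m + 1) Z (t : ℝ)| ^ (2 * lam))

/-- the slopes at the zeros of `Z^(m)`: between two zeros of `Z^(m)` there is a zero of `Z^(m+1)` -/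
lemma slopes_le (m : ℕ) {lam : ℝ} (h1 : 1 / 2 < lam) (h2 : lam ≤ 2) : ∃ C : ℝ, 1 ≤ C ∧ ∀ᶠ T : ℝ in atTop,
    slopes m lam T ≤ ENNReal.ofReal (C * (T * Real.log T ^ (lam ^ 2 + 2 * lam * (m + 1) + 1))) := by
  obtain ⟨C, hC1, hC⟩ := Pool.Agent.X117.AR.arc_le (m + 1) (s := 2 * lam) (by linarith) (by linarith)
  refine ⟨C, hC1, ?_⟩
  filter_upwards [hC, eventually_ge_atTop (1 : ℝ)] with T hT hT1
  unfold slopes
  rw [ENNReal.tsum_eq_iSup_sum]
  refine iSup_le fun s => ?_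
  have hsep : Pool.Agent.X117.AR.Sep (m + 1) T (s.map (Function.Embedding.subtype _)) := by
    refine ⟨fun p hp => ?_, fun p hp q hq hpq => ?_⟩
    · obtain ⟨⟨t, ht⟩, -, rfl⟩ := Finset.mem_map.mp hp
      exact ⟨ht.1, ht.2.1⟩
    · obtain ⟨⟨t, ht⟩, -, rfl⟩ := Finset.mem_map.mp hp
      obtain ⟨⟨t', ht'⟩, -, rfl⟩ := Finset.mem_map.mp hq
      simp only [Function.Embedding.subtype_apply] at hpq ⊢
      have hc : ContinuousOn (iteratedDeriv m Pool.Agent.X117.HZ.Z) (Set.Icc t t') := fun u hu =>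
        (Pool.Agent.X117.DZ.iter_diff m (by linarith [hu.1, ht.1])).continuousAt.continuousWithinAt
      have e1 : iteratedDeriv m Pool.Agent.X117.HZ.Z t = 0 := ht.2.2
      have e2 : iteratedDeriv m Pool.Agent.X117.HZ.Z t' = 0 := ht'.2.2
      obtain ⟨z, hz, hz2⟩ := exists_deriv_eq_zero hpq hc (by rw [e1, e2])
      refine ⟨z, hz.1.le, hz.2.le, ?_⟩
      rw [iteratedDeriv_succ]
      exact hz2
  have h3 := hT _ hsep
  rw [Finset.sum_map] at h3
  refine h3.trans (le_of_eq ?_)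
  push_cast
  congr 4
  ring

lemma sum_bound {S : Set ℂ} {f : ℂ → ℝ} {B : ℝ} (hf : ∀ z, 0 ≤ f z)
    (h : ∀ Z : Finset ℂ, (∀ z ∈ Z, z ∈ S) → ∑ z ∈ Z, f z ≤ B) :
    ∑' z : S, ENNReal.ofReal (f z) ≤ ENNReal.ofReal B := by
  classical
  refine ENNReal.summable.tsum_le_of_sum_le fun Z => ?_
  rw [← ENNReal.ofReal_sum_of_nonneg fun _ _ => hf _]
  refine ENNReal.ofReal_le_ofReal ?_
  have e : ∑ z ∈ Z, f z = ∑ z ∈ Z.map (Function.Embedding.subtype _), f z := by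
    rw [Finset.sum_map]
    rfl
  rw [e]
  refine h _ fun z hz => ?_
  rw [Finset.mem_map] at hz
  obtain ⟨y, -, rfl⟩ := hz
  exact y.2

/-- **upper bounds of the expected order for discrete moments** -/
theorem result :
    -- the discrete moments over the zeros near the critical line
    (∀ lam A : ℝ, 0 < lam → lam ≤ 2 → 1 ≤ A → ∃ C T₀ : ℝ, ∀ T : ℝ, T₀ ≤ T →
      J lam A T ≤ ENNReal.ofReal (C * (T * Real.log T ^ ((lam + 1) ^ 2)))) ∧
    -- the zeros with a large derivative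
    (∀ κ A : ℝ, 0 < κ → κ ≤ 2 → 1 ≤ A → ∃ C T₀ : ℝ, ∀ T : ℝ, T₀ ≤ T →
      (large κ A T).Finite ∧ ((large κ A T).ncard : ℝ) ≤ C * (T * Real.log T ^ (1 - κ ^ 2))) ∧
    -- the zeros of the derivatives of Hardy's function
    ∀ (m : ℕ) (lam : ℝ), 1 / 2 < lam → lam ≤ 2 → ∃ C T₀ : ℝ, ∀ T : ℝ, T₀ ≤ T →
      slopes m lam T ≤ ENNReal.ofReal (C * (T * Real.log T ^ (lam ^ 2 + 2 * lam * (m + 1) + 1))) := by
  refine ⟨fun lam A h1 h2 hA => ?_, fun κ A h1 h2 hA => ?_, fun m lam h1 h2 => ?_⟩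
  · obtain ⟨C, -, T₀, -, -, h⟩ := Pool.Agent.X117.SZ.near_sum h1 h2 hA 1
    refine ⟨C, T₀, fun T hT => ?_⟩
    refine sum_bound (S := near A T) (f := fun ρ => (mult ρ : ℝ) * ‖deriv riemannZeta ρ‖ ^ (2 * lam))
      (fun z => mul_nonneg (Nat.cast_nonneg _) (Real.rpow_nonneg (norm_nonneg _) _)) fun Z hZ => ?_
    have h3 := h T hT Z hZ
    simp_rw [iteratedDeriv_one] at h3
    refine h3.trans (le_of_eq ?_)
    congr 3
    push_cast
    ring
  · obtain ⟨C, -, T₀, hT₀, h4A, h⟩ := Pool.Agent.X117.SZ.near_sum h1 h2 hA 1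
    refine ⟨C, T₀, fun T hT => ?_⟩
    have hT0 : 0 < T := by linarith
    have hL1 : 4 ≤ Real.log T := by
      have := Real.log_le_log (show 0 < T₀ by linarith) hT
      linarith
    have hL0 : 0 < Real.log T := by linarith
    have hstrip : ∀ z ∈ near A T, 0 < z.re ∧ z.re < 1 := by
      rintro z ⟨a1, a2, a3, a4⟩
      have h5 : A / Real.log T ≤ 1 / 4 := by
        have := Real.log_le_log (show 0 < T₀ by linarith) hT
        rw [div_le_div_iff₀ hL0 (by norm_num)]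
        linarith
      have h6 := a2.trans h5
      rw [abs_le] at h6
      constructor <;> linarith [h6.1, h6.2]
    have hfin : (large κ A T).Finite := (H370.zeta_zeros_finite T).subset fun z hz => by
      obtain ⟨⟨a1, a2, a3, a4⟩, -⟩ := hz
      obtain ⟨b1, b2⟩ := hstrip z ⟨a1, a2, a3, a4⟩
      exact ⟨b1, b2, a3, a4, a1⟩
    refine ⟨hfin, ?_⟩
    set Y : ℝ := (Real.log T ^ (1 + κ)) ^ (2 * κ) with hY
    have hY0 : 0 < Y := by positivity
    have h3 := h T hT hfin.toFinset fun z hz => by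
      rw [Set.Finite.mem_toFinset] at hz
      exact hz.1
    simp_rw [iteratedDeriv_one] at h3
    have h4 : ((large κ A T).ncard : ℝ) * Y ≤
        ∑ z ∈ hfin.toFinset, (analyticOrderNatAt riemannZeta z : ℝ) * ‖deriv riemannZeta z‖ ^ (2 * κ) := by
      rw [Set.ncard_eq_toFinset_card _ hfin, ← nsmul_eq_mul]
      refine Finset.card_nsmul_le_sum _ _ _ fun z hz => ?_
      rw [Set.Finite.mem_toFinset] at hz
      have h5 : Y ≤ ‖deriv riemannZeta z‖ ^ (2 * κ) := Real.rpow_le_rpow (by positivity) hz.2 (by linarith)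
      have h6 : (1 : ℝ) ≤ (analyticOrderNatAt riemannZeta z : ℝ) := by
        exact_mod_cast Pool.Agent.X117.SZ.one_le_ord hz.1.2.2.1 hz.1.1
      nlinarith
    have h5 := h4.trans h3
    have h6 : C * (T * Real.log T ^ (κ ^ 2 + 2 * κ * ((1 : ℕ) : ℝ) + 1)) = C * (T * Real.log T ^ (1 - κ ^ 2)) * Y := by
      rw [hY, ← Real.rpow_mul hL0.le, mul_assoc C, mul_assoc T, ← Real.rpow_add hL0]
      congr 3
      push_cast
      ring
    rw [h6] at h5
    exact le_of_mul_le_mul_right h5 hY0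
  · obtain ⟨C, -, h⟩ := slopes_le m h1 h2
    exact ⟨C, Filter.eventually_atTop.mp h⟩

end Pool.Agent.Results.MP_69b2e4_nt.SharpUpperBounds
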